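import Pool.Agent.Q206.UE.JCa
import Pool.Agent.Q206.UE.JEnc
import Pool.Agent.Q206.UE.JInf
import Pool.Agent.Q206.UE.JPre
import Pool.Agent.Q206.UE.JStep
import Pool.Agent.Q206.UE.JTmz
import Pool.Agent.Q206.UE.JUb3
import Pool.Agent.Q206.UE.JUb4
import Pool.Agent.Q206.UE.JUniv
import Pool.Agent.Q206.UE.JV1
import Pool.Agent.Q206.UE.JV2
import Pool.Agent.Q206.UE.JV4
import Pool.Agent.Q206.UE.Upper2

/-!
# Finiteness of the update evolution modulo bisimulation is undecidable
-/

namespace Pool.Agent.Results.MP_bcf1b9_lc.FinitenessUndecidable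

open Pool.Agent.Q206.UE

/-- There is a fixed finite action model `A` such that the set of the finite epistemic models `M`
with `TREE(M, A)` finite modulo bisimulation is `Σ₁`-complete, in particular not computable; the
set of all pairs `(M, A)` with this property is recursively enumerable; every finite action model
and every finite epistemic model with finitely many atoms is given by data. -/
theorem result :
    (∃ (k : ℕ) (α : FA k),
      (∀ S : ℕ → Prop, REPred S → ∃ f : ℕ → FM k, Computable f ∧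
        ∀ n, S n ↔ FinMod (tree (toModel (f n)) (toAction α))) ∧
      ¬ ComputablePred fun D : FM k => FinMod (tree (toModel D) (toAction α))) ∧
    (∀ k : ℕ, REPred fun p : FM k × FA k => FinMod (tree (toModel p.1) (toAction p.2))) ∧
    (∀ (k : ℕ) (A : Action k) [Finite A.E], ∃ α : FA k, AIso (toAction α) A) ∧
    ∀ (k : ℕ) (M : Model k) [Finite M.W] (m : ℕ), (∀ a, m ≤ a → ∀ w, ¬ M.val a w) →
      ∃ D : FM k, Iso (toModel D) M := by
  refine ⟨?_, upper2 v1 v2 JUb3.ub3 JUb4.ub4, fun k A _ => data_aiso A,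
    fun k M _ m hm => data_iso M m hm⟩
  obtain ⟨k, A, hfin, h⟩ := hard JPre.pre JStep.step t_inf enc tmz ca JUniv.univ
  obtain ⟨α, hα⟩ := v3 k A
  have h' : ∀ S : ℕ → Prop, REPred S → ∃ f : ℕ → FM k, Computable f ∧
      ∀ n, S n ↔ FinMod (tree (toModel (f n)) (toAction α)) := by
    intro S hS
    obtain ⟨f, hf, hfS⟩ := h S hS
    exact ⟨f, hf, fun n => (hfS n).trans (hα _).symm⟩
  refine ⟨k, α, h', fun hcomp => ?_⟩
  have hre : REPred fun n => (Pool.Agent.Helper450.NPM.Univ.u n).Dom :=
    Pool.Agent.Helper450.NPM.Univ.u_partrec.dom_re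
  obtain ⟨f, hf, hS⟩ := h' _ hre
  exact Pool.Agent.Helper450.NPM.Univ.u_not_computable
    (ComputablePred.computable_of_manyOneReducible ⟨f, hf, hS⟩ hcomp)

end Pool.Agent.Results.MP_bcf1b9_lc.FinitenessUndecidable
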